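import Pool.Agent.H89.DP.Cmp
import Pool.Agent.H89.DP.Up4
import Pool.Agent.H89.DP.N5b
import Pool.Agent.H89.DP.L.PROD
import Pool.Agent.H89.DP.L.YNG
import Pool.Agent.H89.DP.L.BASE
import Pool.Agent.H89.DP.L.CNV
import Pool.Agent.H89.DP.L.GRW
import Pool.Agent.H89.DP.L.YTH
import Pool.Agent.H89.DP.L.YT4
import Pool.Agent.H89.DP.L.C5
import Pool.Agent.H89.DP.L.FA
import Pool.Agent.H89.DP.L.G1
import Pool.Agent.H89.DP.L.G2
import Pool.Agent.H89.DP.L.MOM
import Pool.Agent.H89.DP.L.ASY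
import Pool.Agent.H89.DP.L.YUP
import Pool.Agent.H89.DP.L.INJ

/-!
# Minimum rank sizes of `r`-differential posets (MP_987dc0_co)

`m_r(n) = |Y^r_n|` for `n ≤ 3`, `m_r(4) = |Y^r_4| - ⌊r / 3⌋` for all `r ≥ 1`,
`m_r(5) = |Y^r_5| - r ^ 2 / 3 + O(r)`, and bounds for all ranks `n`.
-/

set_option autoImplicit false

namespace Pool.Agent.Results.MP_987dc0_co.ExactUpToRankFour

open Pool.Agent.H89.DP

/-- the minimum of the rank sizes `|P_n|` over all `r`-differential posets `P` -/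
noncomputable def m (r n : ℕ) : ℕ := sInf {k : ℕ | ∃ a : ℕ → ℕ, D r a ∧ a n = k}

theorem y_zero' (s : ℕ) : y s 0 = 1 := (L.YTH.main L.CNV.main s).1

theorem y34 : y 3 4 = 51 := by
  have := L.YT4.main L.CNV.main L.YTH.main 3
  omega

theorem y_five (r : ℕ) :
    120 * y r 5 = r * (r ^ 4 + 30 * r ^ 3 + 215 * r ^ 2 + 450 * r + 144) := by
  have h := L.YTH.main L.CNV.main 1
  have h4 := L.YT4.main L.CNV.main L.YTH.main 1
  refine y5 L.CNV.main L.YTH.main L.YT4.main ?_ ?_ ?_ ?_ ?_ ?_ ?_ r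
  · rw [y_one]; exact L.C5.card5
  · omega
  · omega
  · omega
  · omega
  · omega
  · rw [y_zero]; norm_num

theorem m_le {r n : ℕ} {a : ℕ → ℕ} (h : D r a) : m r n ≤ a n := Nat.sInf_le ⟨a, h, rfl⟩

theorem m_attained {r n : ℕ} {a : ℕ → ℕ} (h : D r a) : ∃ b : ℕ → ℕ, D r b ∧ b n = m r n := by
  have : m r n ∈ {k : ℕ | ∃ a : ℕ → ℕ, D r a ∧ a n = k} := Nat.sInf_mem ⟨a n, a, h, rfl⟩
  exact this

theorem lowerD {r : ℕ} {a : ℕ → ℕ} (h : D r a) : (∀ n ≤ 3, y r n ≤ a n) ∧ y r 4 ≤ a 4 + r / 3 := by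
  obtain ⟨P, _, _, _, ρ, hP, hq⟩ := h
  have := lower L.FA.main L.G1.main L.G2.main L.CNV.main L.YTH.main L.YT4.main hP
  constructor
  · intro n hn
    rw [← hq n]
    exact this.1 n hn
  · rw [← hq 4]
    exact this.2

theorem lowerD5 {r : ℕ} {a : ℕ → ℕ} (h : D r a) (hr : 20 ≤ r) :
    (y r 5 : ℚ) - a 5 ≤ r * (2 * r - 1) / 6 := by
  obtain ⟨P, _, _, _, ρ, hP, hq⟩ := h
  have h1 := low5 L.FA.main L.G1.main L.G2.main hP hr
  rw [hq 5] at h1
  have h2 : (120 : ℚ) * y r 5 = r * (r ^ 4 + 30 * r ^ 3 + 215 * r ^ 2 + 450 * r + 144) := by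
    exact_mod_cast y_five r
  linarith

theorem young (r : ℕ) : D r (y r) :=
  D_congr (DS_y L.PROD.main L.YNG.main L.CNV.main r) (fun n => coeff_gf (y r) n)

theorem construct (r : ℕ) : ∃ a : ℕ → ℕ, D r a ∧ (∀ n ≤ 3, a n = y r n) ∧ a 4 + r / 3 = y r 4 ∧
    ∀ N : ℕ, 516 * N + 3 ≤ r → (a (N + 4) : ℚ) + (r / 3 : ℕ) *
      ((1 - 260 * N / ((r : ℚ) - 3)) * (((r : ℚ) - 3) ^ N / N.factorial)) ≤ (y r (N + 4) : ℚ) := by
  obtain ⟨q, hD, h0, h1, h2, h3, h4, hR, h5⟩ :=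
    base L.FA.main L.G1.main L.G2.main L.INJ.main L.BASE.main
  have hy3 := L.YTH.main L.CNV.main 3
  have hq : ∀ i ≤ 3, q i = y 3 i := by
    intro i hi
    interval_cases i
    · omega
    · omega
    · omega
    · omega
  have hq4 : q 4 + 1 = y 3 4 := by rw [h4, y34]
  have hDS : DS 3 (gf q) := by
    unfold DS
    exact D_congr hD (fun n => (coeff_gf q n).symm)
  have hRp : Rp 3 (gf q) := by
    intro m
    rw [coeff_gf, coeff_gf]
    exact hR m
  have hr : 3 * (r / 3) + r % 3 = r := Nat.div_add_mod r 3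
  refine ⟨fun n => PowerSeries.coeff n (gf q ^ (r / 3) * gf (y (r % 3))), ?_, ?_, ?_, ?_⟩
  · have := DS_mul L.PROD.main (DS_pow L.PROD.main hDS (r / 3))
      (DS_y L.PROD.main L.YNG.main L.CNV.main (r % 3))
    rw [hr] at this
    exact this
  · intro n hn
    have := exact_low q L.CNV.main hq (r / 3) (r % 3) n hn
    rw [hr] at this
    exact this
  · have := exact_four q L.CNV.main hq hq4 y_zero' h0 (r / 3) (r % 3)
    rw [hr] at this
    exact this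
  · intro N hN
    have := many_steps' L.CNV.main hq hq4 h0 y_zero' h5 hRp L.GRW.main N (r / 3) (r % 3)
      (by omega)
    rw [hr] at this
    exact this

theorem upper {n r : ℕ} (hn : 4 ≤ n) (hr : 516 * (n - 4) + 3 ≤ r) :
    (m r n : ℚ) ≤ (y r n : ℚ) - (r / 3 : ℕ) *
      ((1 - 260 * (n - 4 : ℕ) / ((r : ℚ) - 3)) * (((r : ℚ) - 3) ^ (n - 4) / (n - 4).factorial)) := by
  obtain ⟨a, hD, -, -, hN⟩ := construct r
  have h1 := hN (n - 4) hr
  rw [Nat.sub_add_cancel hn] at h1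
  have h2 : (m r n : ℚ) ≤ a n := by exact_mod_cast m_le hD
  linarith

theorem result :
    (∀ r : ℕ, 1 ≤ r →
      (∀ n ≤ 3, m r n = y r n) ∧ m r 4 = y r 4 - r / 3 ∧
      ∃ a : ℕ → ℕ, D r a ∧ ∀ n ≤ 4, a n = m r n) ∧
    (∀ r : ℕ, 20 ≤ r →
      (r : ℚ) ^ 2 / 3 - 173 * r ≤ (y r 5 : ℚ) - m r 5 ∧
      (y r 5 : ℚ) - m r 5 ≤ (r : ℚ) ^ 2 / 3 - r / 6) ∧
    (∀ n : ℕ, 4 ≤ n → ∀ r : ℕ, 516 * (n - 4) + 3 ≤ r →
      (m r n : ℚ) ≤ (y r n : ℚ) - (r / 3 : ℕ) *
        ((1 - 260 * (n - 4 : ℕ) / ((r : ℚ) - 3)) * (((r : ℚ) - 3) ^ (n - 4) / (n - 4).factorial))) ∧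
    (∀ n : ℕ, 4 ≤ n → ∃ K : ℚ, ∀ r : ℕ, 1 ≤ r →
      (y r n : ℚ) - K * (r : ℚ) ^ (n - 2) ≤ (m r n : ℚ)) := by
  refine ⟨?_, ?_, fun n hn r hr => upper hn hr, ?_⟩
  · intro r hr
    obtain ⟨a, hD, ha, ha4, -⟩ := construct r
    have hm : ∀ n ≤ 3, m r n = y r n := by
      intro n hn
      apply le_antisymm
      · rw [← ha n hn]; exact m_le hD
      · obtain ⟨b, hb, hbm⟩ := m_attained (n := n) hD
        rw [← hbm]
        exact (lowerD hb).1 n hn
    have hm4 : m r 4 + r / 3 = y r 4 := by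
      apply le_antisymm
      · rw [← ha4]
        exact Nat.add_le_add_right (m_le hD) _
      · obtain ⟨b, hb, hbm⟩ := m_attained (n := 4) hD
        rw [← hbm]
        exact (lowerD hb).2
    refine ⟨hm, by omega, a, hD, ?_⟩
    intro n hn
    rcases Nat.lt_or_ge n 4 with h | h
    · rw [ha n (by omega), hm n (by omega)]
    · have : n = 4 := by omega
      subst this
      omega
  · intro r hr
    have hr' : (20 : ℚ) ≤ r := by exact_mod_cast hr
    constructor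
    · rcases Nat.lt_or_ge r 519 with h | h
      · have h1 : (m r 5 : ℚ) ≤ y r 5 := by exact_mod_cast m_le (young r)
        have h2 : (r : ℚ) ≤ 519 := by exact_mod_cast h.le
        nlinarith
      · have h1 := upper (n := 5) (r := r) (by norm_num) (by omega)
        have h2 : (519 : ℚ) ≤ r := by exact_mod_cast h
        have h3 : (r : ℚ) - 2 ≤ 3 * ((r / 3 : ℕ) : ℚ) := by
          have : r ≤ 3 * (r / 3) + 2 := by omega
          have h4 : (r : ℚ) ≤ 3 * ((r / 3 : ℕ) : ℚ) + 2 := by exact_mod_cast this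
          linarith
        have h4 : (1 - 260 * ((5 - 4 : ℕ) : ℚ) / ((r : ℚ) - 3)) *
            (((r : ℚ) - 3) ^ (5 - 4) / ((5 - 4).factorial : ℚ)) = (r : ℚ) - 263 := by
          have h5 : (r : ℚ) - 3 ≠ 0 := by
            have : (0 : ℚ) < (r : ℚ) - 3 := by linarith
            exact this.ne'
          norm_num
          field_simp
          ring
        rw [h4] at h1
        have h6 : ((r : ℚ) - 2) * ((r : ℚ) - 263) ≤ 3 * ((r / 3 : ℕ) : ℚ) * ((r : ℚ) - 263) :=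
          mul_le_mul_of_nonneg_right h3 (by linarith)
        nlinarith
    · obtain ⟨b, hb, hbm⟩ := m_attained (n := 5) (young r)
      have h1 := lowerD5 hb hr
      rw [hbm] at h1
      have h2 : (r : ℚ) * (2 * r - 1) / 6 = (r : ℚ) ^ 2 / 3 - r / 6 := by ring
      rw [h2] at h1
      exact h1
  · intro n hn
    obtain ⟨K, hK⟩ := lower_all L.FA.main L.G1.main L.G2.main L.MOM.main L.ASY.main L.CNV.main
      L.YUP.main (n - 2)
    refine ⟨K, ?_⟩
    intro r hr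
    obtain ⟨b, hb, hbm⟩ := m_attained (n := n) (young r)
    have := hK r hr b hb
    rw [Nat.sub_add_cancel (by omega), hbm] at this
    linarith

end Pool.Agent.Results.MP_987dc0_co.ExactUpToRankFour
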